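import Pool.Agent.X180.OT.MultiNon
import Pool.Agent.Y191.SmallFib
import Pool.Agent.Y191.GenFib

/-!
Orbifold towers over subvarieties of projective space: the base.
-/

set_option autoImplicit false
set_option linter.overlappingInstances false

open FF Pool.Agent.W602.GT Pool.Agent.Y172 Pool.Agent.Y191 Pool.Agent.W603.LV
open Pool.Agent.X180.Tow (HasForms)

namespace Pool.Agent.X180.OT

theorem small_base {v q d p s lam : ℕ} (hd : 0 < d) {ℓ : Fin q → Fin (v + 1) → ℂ}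
    (hI : Independent d ℓ) (hg : GeneralPosition ℓ) (hq : v + 1 ≤ q) {K : Type} [Field K]
    [Algebra ℂ K] {b : Fin (v + 1) → K} (hl : ∀ i, lf (ℓ i) b ≠ 0)
    (hb : ∃ j, b j ≠ 0) (htr : Algebra.trdeg ℂ (RF ℂ b) = p)
    (hK : Algebra.trdeg ℂ K = (p + s : ℕ)) {wt : Fin q → ℚ} (hwt0 : ∀ i, 0 ≤ wt i)
    (hlt : (((p + 1) * (v - p + d).choose (v - p) : ℕ) : ℚ) ≤ ∑ i, wt i) {X : Set (Place ℂ K)}
    (hmult : ∀ P ∈ X, ∀ (c : ℤ) (e : Fin q → ℕ), OrdData P ℓ b c e →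
      ((min (Finset.univ.filter fun i => e i ≠ 0).card ((v - p + d).choose (v - p)) : ℕ) : ℚ) ≤
        ∑ i, (1 - wt i) * e i)
    (h0 : HasForms (p + s) X (fun _ => 0) (RF ℂ b) s lam) :
    KodairaGe (p + s) X (fun _ => 0) lam ∧
      ((((p + 1) * (v - p + d).choose (v - p) : ℕ) : ℚ) < ∑ i, wt i →
        KodairaGe (p + s) X (fun _ => 0) (p + lam)) := by
  obtain ⟨M, hM, θ, hθ, hne⟩ := h0
  refine small_fib (δ₁ := fun _ => 0) hd hI hg hq hl hb htr hK hwt0 hlt (fun _ _ => by simp)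
    (fun P hP _ c e ho => ?_) hM hθ hne
  have h1 := hmult P hP c e ho
  have h2 := (Rat.cast_le (K := ℝ)).2 h1
  rw [mul_zero, zero_add]
  push_cast at h2 ⊢
  exact h2

end Pool.Agent.X180.OT
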