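import Pool.Agent.X180.OT.Defs
import Pool.Agent.X180.Orb.ChainP
import Pool.Agent.X180.TP.Proof

/-!
Forms for towers of fibrations with multiplicities on the variety.
-/

set_option autoImplicit false
set_option linter.overlappingInstances false

open FF Pool.Agent.W602.GT Pool.Agent.Y172 Pool.Agent.Y191 Pool.Agent.X180.Orb
open Pool.Agent.X180.Tow (HasForms dn trdeg_dn)
open Pool.Agent.X180.Iso (hor)

namespace Pool.Agent.X180.OT

variable {K : Type} [Field K] [Algebra ℂ K]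

theorem trdeg_step {E L : IntermediateField ℂ K} (hLE : L ≤ E) {d e : ℕ}
    (hL : Algebra.trdeg ℂ L = d) (hE : Algebra.trdeg ℂ E = (d + e : ℕ)) :
    Algebra.trdeg (dn E L) E = e := by
  have h5 := _root_.trdeg_add_eq ℂ (dn E L) (A := E)
  rw [hE, trdeg_dn hLE hL] at h5
  push_cast at h5
  exact Cardinal.eq_of_add_eq_add_left h5 Cardinal.natCast_lt_aleph0

/-- the forms of a step -/
theorem part_orb {E L : IntermediateField ℂ K} (hLE : L ≤ E) {N d e' e lam : ℕ}
    (hK : Algebra.trdeg ℂ K = N) (hN : N = d + e') (hL : Algebra.trdeg ℂ L = d)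
    (hE : Algebra.trdeg ℂ E = (d + e : ℕ)) {S : Set (Place ℂ K)} {δ : Place ℂ K → ℝ}
    (hδ : ∀ P ∈ S, 0 ≤ δ P) (h : OrbifoldFibres S δ E L e lam) :
    HasPart N S (fun P => hor L δ P - hor E δ P) E L e lam := by
  obtain ⟨c, r, s, w, rfl, rfl, hw, K', _, _, _, _, _, A, u, hA, hu, huE, hH⟩ := h
  obtain ⟨κ, hκ, hκs⟩ := Pool.Agent.X180.TP.exists_idx r s w
  refine lc_hor hLE (Pool.Agent.X180.Iso.trdeg_rel (d := d) (hK.trans (by rw [hN])) hL)
    (trdeg_step hLE hL hE) hA finSigmaFinEquiv hu huE (fun j => (hw j).2.1)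
    (fun j => (hw j).2.2) hκ hκs hδ ?_
  intro P hP
  refine hH P ⟨hP.1, ?_⟩
  have h1 := hP.2
  push Not at h1
  exact h1

/-- **Orbifold towers.** -/
theorem orb_forms {N e' lam' l : ℕ}
    {S : Set (Place ℂ K)} {δ : Place ℂ K → ℝ} (hδ : ∀ P ∈ S, 0 ≤ δ P)
    {E : Fin (l + 1) → IntermediateField ℂ K}
    {D : Fin (l + 1) → ℕ} {e lam : Fin l → ℕ} (hT : IsOrbifoldTower S δ E D e lam)
    (hN : Algebra.trdeg ℂ K = N) (hNe : N = D (Fin.last l) + e')
    (h0 : HasForms N S (hor (E (Fin.last l)) δ) (E (Fin.last l)) e' lam') :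
    HasForms N S (hor (E 0) δ) (E 0) (∑ i, e i + e') (∑ i, lam i + lam') := by
  refine chain_part hN l E (fun i => (hT.2 i).1) D hT.1 e lam (fun i => (hT.2 i).2.1) hNe
    (fun i => ?_) h0
  have h1 : ∃ e'', N = D i.castSucc + e'' := by
    have h2 : D i.castSucc ≤ N := by
      have h3 : Algebra.trdeg ℂ (E i.castSucc) ≤ Algebra.trdeg ℂ K := by
        rw [← _root_.trdeg_add_eq ℂ (E i.castSucc) (A := K)]
        exact self_le_add_right _ _
      rw [hT.1, hN] at h3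
      exact_mod_cast h3
    exact ⟨N - D i.castSucc, by omega⟩
  obtain ⟨e'', he''⟩ := h1
  exact part_orb (hT.2 i).1 hN he'' (hT.1 _) (by rw [hT.1, (hT.2 i).2.1]) hδ (hT.2 i).2.2

end Pool.Agent.X180.OT
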