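import Pool.Agent.X180.OT.FibMain
import Pool.Agent.TH466.QG.ATop
import Pool.Agent.W619.Y.Unir

/-!
Uniruledness and orbifold towers: the proof.
-/

set_option autoImplicit false
set_option linter.overlappingInstances false

open FF Module Pool.Agent.W602.Cov Pool.Agent.W602.GT Pool.Agent.Y172 Pool.Agent.Y191
open Pool.Agent.W619.PQ (IsUniruled)
open Pool.Agent.X180.TP (Bound affine BaseField Multiplicities IsCanonicalVariety base_kod dims)
open Pool.Agent.X180.Tow (HasForms hor_nonneg)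
open Pool.Agent.X180.Iso (hor)

namespace Pool.Agent.X180.OT

/-- **Isotrivial fibrations over orbifold towers.** -/
theorem iso_gen {K : Type} [Field K] [Algebra ℂ K] {N l f : ℕ}
    {E : Fin (l + 1) → IntermediateField ℂ K} {D : Fin (l + 1) → ℕ} {e lam : Fin l → ℕ}
    {y : Fin (N + 1) → K} (hy : IsCanonicalVariety y (D (Fin.last l) + f))
    (hT : IsOrbifoldTower {P | IsPrimeDivisor y P} (fun _ => 0) E D e lam) {k : ℕ}
    (hbase : ∀ lam' : ℕ, HasForms (D 0 + (∑ i, e i + f)) {P | IsPrimeDivisor y P}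
      (fun _ => 0) (E 0) (∑ i, e i + f) lam' →
      KodairaGe (D 0 + (∑ i, e i + f)) {P | IsPrimeDivisor y P} (fun _ => 0) (k + lam'))
    {K' : Type} [Field K'] [Algebra ℂ K'] [Algebra K K'] [IsScalarTower ℂ K K'] {α : K'}
    (hα : IsAlgebraic (E (Fin.last l)) α) (htop : IntermediateField.adjoin K {α} = ⊤)
    (M : IntermediateField ℂ K') [Algebra.EssFiniteType ℂ M] (hM : Algebra.trdeg ℂ M = f)
    (hdom : ∀ z : K', IsAlgebraic (IntermediateField.adjoin ℂ
      ({a : K' | IsAlgebraic (E (Fin.last l)) a} ∪ M)) z) {h : ℕ}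
    (hk : KodGe ℂ M f (fun _ => False) h) :
    KodGe ℂ K (D (Fin.last l) + f) (fun _ => False) (k + ∑ i, lam i + h) := by
  have hfin : FiniteDimensional K K' := Pool.Agent.X180.Iso.fin_of_top hα htop
  have hK : Algebra.trdeg ℂ K = (D (Fin.last l) + f : ℕ) := hy.2.1
  have h0 : HasForms (D (Fin.last l) + f) {P | IsPrimeDivisor y P} (fun _ => 0)
      (E (Fin.last l)) f h :=
    Pool.Agent.X180.Iso.fib_forms hK (Pool.Agent.X180.Iso.trdeg_rel hK (hT.1 _)) hα htop M hM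
      (fun z => Pool.Agent.X180.Iso.alg_acl M (hdom z)) hk _
  have h1 := (orb_forms (fun _ _ => le_rfl) hT hK rfl
    (h0.mono fun P _ => hor_nonneg le_rfl)).mono (δ' := fun _ => 0)
    (fun P _ => (hor_zero _ P).le)
  have hsum : D (Fin.last l) = D 0 + ∑ i, e i := dims fun i => (hT.2 i).2.1
  have hn : D (Fin.last l) + f = D 0 + (∑ i, e i + f) := by
    rw [hsum, add_assoc]
  rw [hn] at h1
  have h2 := hbase _ h1
  rw [← hn, ← add_assoc k] at h2
  exact Pool.Agent.X180.Abn.kodGe_of_kodTr (kod_can hy.1 hK hy.2.2 h2)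

theorem not_psef_of_uniruled {K : Type} [Field K] [Algebra ℂ K] [Algebra.EssFiniteType ℂ K] {n : ℕ}
    (hn : Algebra.trdeg ℂ K = n) (h : IsUniruled ℂ K n) : ¬ Psef ℂ K n (fun _ => False) :=
  fun hp => (Pool.Agent.W619.Y.uniruled_neg n hn h).1 ((Pool.Agent.TH466.QG.psef_iff n).1 hp)

/-- the base -/
theorem multi_base {m : ℕ} {n q : Fin m → ℕ} (hn : ∀ i, 1 ≤ n i)
    {ℓ : ∀ i, Fin (q i) → Form (n i)} (hℓ : ∀ i k, ℓ i k ≠ 0) (hr : ∀ i, ¬ Reducible (ℓ i))
    {d : Fin m → ℕ} (hd : ∀ i, Bound (ℓ i) (d i)) {K : Type} [Field K] [Algebra ℂ K]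
    {N l f : ℕ}
    {E : Fin (l + 1) → IntermediateField ℂ K} {D : Fin (l + 1) → ℕ} {e lam : Fin l → ℕ}
    {y : Fin (N + 1) → K} (hy : IsCanonicalVariety y (D (Fin.last l) + f))
    {x : ∀ i, Fin (n i + 1) → K}
    (hx0 : ∀ i, x i 0 ≠ 0) (hind : AlgebraicIndependent ℂ (affine x)) (hE0 : E 0 = BaseField x)
    (hT : IsOrbifoldTower {P | IsPrimeDivisor y P} (fun _ => 0) E D e lam)
    (hm : Multiplicities y ℓ x d fun z => 1 ≤ z) (lam' : ℕ)
    (h0 : HasForms (D 0 + (∑ i, e i + f)) {P | IsPrimeDivisor y P}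
      (fun _ => 0) (E 0) (∑ i, e i + f) lam') :
    KodairaGe (D 0 + (∑ i, e i + f)) {P | IsPrimeDivisor y P} (fun _ => 0) lam' ∧
      (Multiplicities y ℓ x d (fun z => 1 < z) →
        KodairaGe (D 0 + (∑ i, e i + f)) {P | IsPrimeDivisor y P} (fun _ => 0) (D 0 + lam')) := by
  have htr : D 0 = ∑ i, n i := by
    let e : ((i : Fin m) × Fin (n i)) ≃ Fin (∑ i, n i) := finSigmaFinEquiv
    have h2 := Pool.Agent.X180.Multi.trdeg_adjoin (hind.comp e.symm e.symm.injective)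
    have hrange : Set.range (affine x ∘ e.symm) = Set.range (affine x) :=
      e.symm.surjective.range_comp (affine x)
    rw [hrange] at h2
    have h3 := hT.1 0
    rw [hE0] at h3
    exact_mod_cast h3.symm.trans h2
  have hsum : D (Fin.last l) = D 0 + ∑ i, e i := dims fun i => (hT.2 i).2.1
  have hK : Algebra.trdeg ℂ K = (∑ i, n i + (∑ i, e i + f) : ℕ) := by
    rw [hy.2.1, hsum, htr, add_assoc]
  rw [hE0, htr] at h0
  rw [htr]
  exact base_kod hn hℓ hr hd hx0 hind hK hm h0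

end Pool.Agent.X180.OT
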