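import Pool.Agent.X180.OT.Forms
import Pool.Agent.X180.Iso.SysPair
import Pool.Agent.Y191.GenFib
import Pool.Agent.X327.MAMain

/-!
Abundance for pairs over orbifold towers: the proof.
-/

set_option autoImplicit false
set_option linter.overlappingInstances false

open FF Pool.Agent.W602.GT Pool.Agent.Y172 Pool.Agent.Y191
open Pool.Agent.X327.MA (IsPair PseudoEffective Negligible Fibres Abundance abundance_of)
open Pool.Agent.X180.TP (dims)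
open Pool.Agent.X180.Tow (HasForms hor_nonneg)
open Pool.Agent.X180.Iso (hor ver)

namespace Pool.Agent.X180.OT

/-- **Pairs over orbifold towers.** -/
theorem pairs_gen {K : Type} [Field K] [Algebra ℂ K] {N l c : ℕ}
    {E : Fin (l + 1) → IntermediateField ℂ K} {D : Fin (l + 1) → ℕ} {e lam : Fin l → ℕ}
    {r s : Fin c → ℕ} {y : Fin (N + 1) → K} {Δ Γ A : Place ℂ K → ℚ}
    (hy : IsPair y (D (Fin.last l) + ∑ j, r j) Δ) (hΓ : Effective y Γ) (hA : Effective y A)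
    (hps : PseudoEffective y (D (Fin.last l) + ∑ j, r j) (Δ - Γ) A)
    (hT : IsOrbifoldTower
      {P | IsPrimeDivisor y P ∧ ¬ Negligible y (D (Fin.last l) + ∑ j, r j) Δ Γ A P}
      (fun P => (Δ P : ℝ)) E D e lam) (hle : ∀ i, lam i = e i) {w : ∀ j, Fin (s j) → ℚ}
    (hF : Fibres y (D (Fin.last l) + ∑ j, r j) Δ
      {P | IsPrimeDivisor y P ∧ ¬ Negligible y (D (Fin.last l) + ∑ j, r j) Δ Γ A P}
      (E (Fin.last l)) r s w)
    (hbase : ∀ lam' : ℕ, HasForms (D 0 + (∑ i, e i + ∑ j, r j))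
      {P | IsPrimeDivisor y P ∧ ¬ Negligible y (D (Fin.last l) + ∑ j, r j) Δ Γ A P}
      (hor (E 0) fun P => (Δ P : ℝ)) (E 0) (∑ i, e i + ∑ j, r j) lam' →
      KodairaGe (D 0 + (∑ i, e i + ∑ j, r j))
        {P | IsPrimeDivisor y P ∧ ¬ Negligible y (D (Fin.last l) + ∑ j, r j) Δ Γ A P}
        (fun P => (Δ P : ℝ)) (D 0 + lam')) :
    Abundance y (D (Fin.last l) + ∑ j, r j) Δ Γ (D (Fin.last l)) r s w := by
  obtain ⟨hw, K', _, _, _, _, _, B, u, hB, hu, hH, hC⟩ := hF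
  obtain ⟨κ, hκ, hκs⟩ := Pool.Agent.X327.MA.exists_idx r s w
  refine abundance_of hy hΓ hA hps hw hB hu hC fun hws => ?_
  obtain ⟨S, hS⟩ : ∃ S, S = {P | IsPrimeDivisor y P ∧
      ¬ Negligible y (D (Fin.last l) + ∑ j, r j) Δ Γ A P} := ⟨_, rfl⟩
  rw [← hS] at hH hT hbase ⊢
  have hδ : ∀ P ∈ S, (0 : ℝ) ≤ (Δ P : ℝ) := fun P hP => by
    rw [hS] at hP
    exact Rat.cast_nonneg.2 (hy.2.2.1 P hP.1)
  have h0 : HasForms (D (Fin.last l) + ∑ j, r j) S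
      (hor (E (Fin.last l)) fun P => (Δ P : ℝ)) (E (Fin.last l)) (∑ j, r j)
      (Pool.Agent.X327.MA.big r s w) :=
    lc_low (N := D (Fin.last l) + ∑ j, r j)
      (Pool.Agent.X180.Iso.trdeg_rel' hy.2.1 (hT.1 _)) hB finSigmaFinEquiv hu
      (fun j i => ((hw j).2 i).1) hws hκ hκs
      (fun P hP => hor_nonneg (hδ P hP)) (Pool.Agent.X180.Iso.lcHor_hor hH)
  have h1 := orb_forms hδ hT hy.2.1 rfl h0
  have hsum : D (Fin.last l) = D 0 + ∑ i, e i := dims fun i => (hT.2 i).2.1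
  have hn : D (Fin.last l) + ∑ j, r j = D 0 + (∑ i, e i + ∑ j, r j) := by
    rw [hsum, add_assoc]
  rw [show ∑ i, lam i = ∑ i, e i from Finset.sum_congr rfl fun i _ => hle i, hn] at h1
  have h2 := hbase _ h1
  rw [← hn, ← add_assoc (D 0), ← hsum] at h2
  exact h2

/-- **General hyperplanes.** -/
theorem gen_base {v q m Q : ℕ} (hv : 1 ≤ v) (hm : 2 ≤ m) (hQ : 2 * v * m ≤ Q * (m - 1))
    (hq : (v + Q).choose v < q) :
    ∃ Ψ : MvPolynomial (Fin q × Fin (v + 1)) ℂ, Ψ ≠ 0 ∧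
      ∀ ℓ : Fin q → Fin (v + 1) → ℂ, MvPolynomial.eval (fun x => ℓ x.1 x.2) Ψ ≠ 0 →
      ∀ (K : Type) [Field K] [Algebra ℂ K] (p s lam : ℕ), 1 ≤ p →
      Algebra.trdeg ℂ K = (p + s : ℕ) →
      ∀ b : Fin (v + 1) → K, (∀ i, lf (ℓ i) b ≠ 0) → (∃ j, b j ≠ 0) →
      Algebra.trdeg ℂ (RF ℂ b) = p →
      ∀ (X : Set (Place ℂ K)) (δ : Place ℂ K → ℝ), (∀ P ∈ X, 0 ≤ δ P) →
      (∀ P ∈ X, ∀ (c : ℤ) (e : Fin q → ℕ), OrdData P ℓ b c e →
        ∀ i, e i = 0 ∨ m * (1 - δ P) ≤ e i) →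
      HasForms (p + s) X (hor (RF ℂ b) δ) (RF ℂ b) s lam → KodairaGe (p + s) X δ (p + lam) := by
  obtain ⟨Ψ, hΨ, h⟩ := general_fib (n := v) (q := q) hv hm hQ hq
  refine ⟨Ψ, hΨ, fun ℓ hℓ K _ _ p s lam hp hK b hl hb htr X δ hδ hmult hθ => ?_⟩
  obtain ⟨M, hM, θ, hθ, hne⟩ := hθ
  refine h ℓ hℓ K p s lam hp hK b hl hb htr X (ver (RF ℂ b) δ) (hor (RF ℂ b) δ) δ
    (fun P hP => ?_) (fun P _ => ?_) (fun P hP _ c e ho i => ?_) M hM θ hθ hne
  · unfold ver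
    split_ifs
    · exact le_rfl
    · exact hδ P hP
  · unfold ver hor
    split_ifs
    · rw [zero_add]
    · rw [add_zero]
  · by_cases htriv : ∀ f ∈ RF ℂ b, f ≠ 0 → P.ord f = 0
    · exact Or.inl (triv_ord hl ho htriv i)
    · unfold ver
      rw [if_neg htriv]
      exact hmult P hP c e ho i

end Pool.Agent.X180.OT
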