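import Pool.Agent.Y191.CanA
import Pool.Agent.Y191.SmallFib
import Pool.Agent.X180.Iso.Main
import Pool.Agent.X180.Abn.Equiv
import Pool.Agent.X180.Orb.Der

/-!
Pluricanonical forms on varieties with canonical singularities.
-/

set_option autoImplicit false
set_option linter.overlappingInstances false
set_option linter.unusedSectionVars false

open FF Pool.Agent.W602.GT
open Pool.Agent.Y172 Pool.Agent.Y191

namespace Pool.Agent.X180.OT

variable {K : Type} [Field K] [Algebra ℂ K] {n N : ℕ} {y : Fin (N + 1) → K}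

theorem exists_frame (hn : Algebra.trdeg ℂ K = n) :
    ∃ D : Fin n → Derivation ℂ K K, IsFrame D := by
  obtain ⟨t, D, ht, hD⟩ := exists_crd (k := ℂ) (K := K) hn
  refine ⟨D, fun E => ⟨fun j => E (t j), Derivation.ext fun z => ?_⟩⟩
  rw [Pool.Agent.Y172.sum_smul_apply]
  exact Pool.Agent.X180.Orb.chain_rule hD E (ht.isAlgebraic_field.isAlgebraic z)

/-- **Sections are regular at all places.** -/
theorem can_zero (hy : NormalModel y) (hn : Algebra.trdeg ℂ K = n) (hcan : Canonical y n)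
    {Q : Place ℂ K}
    (hQ : Divisorial n Q) {m : ℕ} (hm : 1 ≤ m) {ω : (Fin n → Derivation ℂ K K) → K}
    (hωp : IsPluri m ω)
    (hω : ∀ P, IsPrimeDivisor y P → ∀ G : Fin n → Derivation ℂ K K, (∀ i, DerReg P (G i)) →
      ω G = 0 ∨ 0 ≤ P.ord (ω G))
    {G : Fin n → Derivation ℂ K K} (hG : ∀ i, DerReg Q (G i)) : ω G = 0 ∨ 0 ≤ Q.ord (ω G) := by
  classical
  obtain ⟨D, hD⟩ := exists_frame (K := K) hn
  by_cases hωD : ω G = 0
  · exact Or.inl hωD
  right
  have hfr := frame_of_ne hD hm hωp hωD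
  obtain ⟨r, hr, η, hη, hηP, hηQ⟩ := hcan Q hQ
  have hηD : η G ≠ 0 := by
    intro h
    obtain ⟨P, hP, hPQ⟩ := exists_through hy Q
    obtain ⟨-, E, -, hE0, -⟩ := hηP P hP hPQ
    have h1 := pluri_zero hfr hη h
    rw [h1] at hE0
    exact hE0 rfl
  have hηo : (0 : ℤ) ≤ Q.ord (η G) := by
    have h1 := (hηQ G hG).resolve_left hηD
    exact_mod_cast h1
  obtain ⟨F, hF⟩ : ∃ F, F = ω G ^ r / η G ^ m := ⟨_, rfl⟩
  have h1 : ω G ^ r ≠ 0 := pow_ne_zero _ hωD
  have h3 : η G ^ m ≠ 0 := pow_ne_zero _ hηD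
  have hF0 : F ≠ 0 := by
    rw [hF]
    exact div_ne_zero h1 h3
  have hFreg : F ∈ localRing y Q := by
    refine mem_localRing_of_reg hy fun P hP hPQ => ?_
    obtain ⟨-, E, hE, hE0, hEo⟩ := hηP P hP hPQ
    choose C hC using fun i => hfr (E i)
    have e1 : E = fun i => ∑ j, Matrix.of C i j • G j := funext hC
    have hE1 : η E = (Matrix.of C).det ^ r * η G := by
      conv_lhs => rw [e1]
      exact hη _ _
    have hE2 : ω E = (Matrix.of C).det ^ m * ω G := by
      conv_lhs => rw [e1]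
      exact hωp _ _
    obtain ⟨c, hc⟩ : ∃ c, c = (Matrix.of C).det := ⟨_, rfl⟩
    rw [← hc] at hE1 hE2
    have hc0 : c ≠ 0 := by
      rintro rfl
      rw [zero_pow hr.ne', zero_mul] at hE1
      exact hE0 hE1
    have hωE : ω E ≠ 0 := by
      rw [hE2]
      exact mul_ne_zero (pow_ne_zero _ hc0) hωD
    have hF' : F = ω E ^ r / η E ^ m := by
      rw [hF, hE1, hE2, mul_pow, mul_pow, ← pow_mul, ← pow_mul, mul_comm r m]
      have h4 : c ^ (m * r) ≠ 0 := pow_ne_zero _ hc0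
      field_simp
    have h4 : 0 ≤ P.ord (ω E) := (hω P hP E hE).resolve_left hωE
    have h5 : P.ord (η E) = 0 := by
      simpa using hEo
    rw [P.reg_iff hF0, hF', P.ord_div (pow_ne_zero _ hωE) (pow_ne_zero _ hE0),
      P.ord_pow, P.ord_pow, h5, mul_zero, sub_zero]
    exact mul_nonneg (Int.natCast_nonneg r) h4
  have h4 := (Q.reg_iff hF0).1 (localRing_reg hFreg)
  rw [hF, Q.ord_div h1 h3, Q.ord_pow, Q.ord_pow] at h4
  have h6 : 0 ≤ (m : ℤ) * Q.ord (η G) := mul_nonneg (Int.natCast_nonneg m) hηo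
  have hr' : (0 : ℤ) < r := by exact_mod_cast hr
  by_contra hcon
  push Not at hcon
  nlinarith

/-- **The Kodaira dimension of a variety with canonical singularities.** -/
theorem kod_can (hy : NormalModel y) (hn : Algebra.trdeg ℂ K = n) (hcan : Canonical y n) {κ : ℕ}
    (h : KodairaGe n {P | IsPrimeDivisor y P} (fun _ => 0) κ) :
    Pool.Agent.W619.Y.KodTr ℂ K n κ := by
  refine Pool.Agent.X180.Abn.kodTr_of_kodGe (Pool.Agent.X180.Iso.kod_of_pairs ?_)
  obtain ⟨m, hm, ω, h1, h2⟩ := h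
  refine ⟨m, hm, ω, fun j => ⟨(h1 j).1, fun Q _ hQ G hG => ?_⟩, h2⟩
  have h5 : ∀ P, IsPrimeDivisor y P → ∀ G : Fin n → Derivation ℂ K K, (∀ i, DerReg P (G i)) →
      ω j G = 0 ∨ 0 ≤ P.ord (ω j G) := by
    intro P hP G hG
    rcases (h1 j).2 P hP (hP.divisorial hy hn) G hG with h4 | h4
    · exact Or.inl h4
    · right
      rw [mul_zero, neg_zero] at h4
      exact_mod_cast h4
  rcases can_zero hy hn hcan hQ hm (h1 j).1 h5 hG with h3 | h3
  · exact Or.inl h3
  · right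
    rw [mul_zero, neg_zero]
    exact_mod_cast h3

end Pool.Agent.X180.OT
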