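import Pool.Agent.X180.TP.Defs

/-!
Definitions: towers of fibrations with multiplicities on the variety, over linear systems.
-/

set_option autoImplicit false

open FF Pool.Agent.W602.GT Pool.Agent.Y172 Pool.Agent.Y191

namespace Pool.Agent.X180.OT

variable {K : Type} [Field K] [Algebra ℂ K] {N : ℕ}

/-- The function field of the image of the rational map which is given by the linear system `V`: the
field generated by the quotients of the members. -/
noncomputable def ImageField (V : Submodule ℂ K) : IntermediateField ℂ K :=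
  IntermediateField.adjoin ℂ {y : K | ∃ f ∈ V, ∃ g ∈ V, y = f / g}

/-- `V` is not the direct sum of two nonzero subspaces which together contain all the `φ i`. -/
def Indecomposable {q : ℕ} (V : Submodule ℂ K) (φ : Fin q → K) : Prop :=
  ∀ V₁ V₂ : Submodule ℂ K, V₁ ⊔ V₂ = V → V₁ ⊓ V₂ = ⊥ → (∀ i, φ i ∈ V₁ ∨ φ i ∈ V₂) →
    V₁ = ⊥ ∨ V₂ = ⊥

/-- There are `r` members `φ i` of which no two are proportional. -/
def Different (r : ℕ) {q : ℕ} (φ : Fin q → K) : Prop :=
  ∃ τ : Fin r → Fin q, ∀ i j, i ≠ j → ∀ t : ℂ, φ (τ i) ≠ t • φ (τ j)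

/-- The condition on the multiplicities: if the prime divisor `P` of `X` is a component of one of the
divisors `D i` (the order of `φ i` at `P` is not the minimum `a` of the orders of the members of `V`),
then for some members `D i`, `D i'` the difference of the multiplicities of `P` is at least `t`. -/
def SystemMultiplicities (y : Fin (N + 1) → K) {q : ℕ} (V : Submodule ℂ K) (φ : Fin q → K) (t : ℝ) :
    Prop :=
  ∀ P : Place ℂ K, IsPrimeDivisor y P → ∀ a : ℤ, (∀ f ∈ V, f = 0 ∨ a ≤ P.ord f) →
    (∃ f ∈ V, f ≠ 0 ∧ P.ord f = a) → (∃ i, P.ord (φ i) ≠ a) →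
    ∃ i i', t ≤ ((P.ord (φ i) - P.ord (φ i') : ℤ) : ℝ)

/-- Let `K`, `E` and `L` be the function fields of `X`, `W` and `Z`, with dominant rational maps
`X ⇢ W ⇢ Z`, where `W` has dimension `e` over `Z`; let `S` be the set of the prime divisors of `X`, and
`δ P` the coefficient of `P` in a boundary. The fibres of `W` over `Z`, with the multiplicities of the
fibres of `X` over `W`, correspond to moving log canonical arrangements, and their log Kodaira
dimension is `lam`: there is a variety `X'` with a generically finite map `X' ⇢ X`, with the function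
field `K'`, and the `u ⟨j, k⟩` are the affine coordinates of a rational map, over `Z`, of `X'` to a
product of projective spaces of dimensions `r j ≥ 1`, which has the same fibres as the map to `W`, up
to finite maps (the `u ⟨j, k⟩` are algebraic over `E`, and their number is `e`); `A j i` are the
coefficients of hyperplanes, algebraic over `L`, with weights `w j i` such that the arrangement is log
canonical (`LcArr`); the sum of the weights is at least `r j + 1`, and `lam` is the sum of the `r j`
for which it is greater. The multiplicities are bounded (`LcHor`) at the places over those prime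
divisors of `X` only which dominate `Z` and do not dominate `W`. -/
def OrbifoldFibres (S : Set (Place ℂ K)) (δ : Place ℂ K → ℝ) (E L : IntermediateField ℂ K)
    (e lam : ℕ) : Prop :=
  ∃ (c : ℕ) (r s : Fin c → ℕ) (w : ∀ j, Fin (s j) → ℚ), e = ∑ j, r j ∧
  lam = Pool.Agent.X180.TP.big r s w ∧
  (∀ j, 1 ≤ r j ∧ (∀ i, 0 ≤ w j i) ∧ (r j + 1 : ℚ) ≤ ∑ i, w j i) ∧
  ∃ (K' : Type) (_ : Field K') (_ : Algebra ℂ K') (_ : Algebra K K') (_ : IsScalarTower ℂ K K')
    (_ : FiniteDimensional K K') (A : ∀ j, Fin (s j) → Fin (r j + 1) → K')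
    (u : (Σ j, Fin (r j)) → K'),
    LcArr (upF K' L) A w ∧ AlgebraicIndependent (upF K' L) u ∧
    (∀ b, IsAlgebraic (upF K' E) (u b)) ∧
    LcHor L A u w {P | P ∈ S ∧ ∃ f ∈ E, f ≠ 0 ∧ P.ord f ≠ 0} δ

/-- The tower `X ⇢ W_l ⇢ ... ⇢ W_1 ⇢ W_0`: the `E i` are the function fields of varieties of
dimensions `D i`, each contained in the next one, and the fibres of `W_{i+1}` over `W_i`, of dimension
`e i`, with the multiplicities of the fibres of `X` over `W_{i+1}`, are as in `OrbifoldFibres`, of log
Kodaira dimension `lam i`, for each `i < l`. -/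
def IsOrbifoldTower (S : Set (Place ℂ K)) (δ : Place ℂ K → ℝ) {l : ℕ}
    (E : Fin (l + 1) → IntermediateField ℂ K) (D : Fin (l + 1) → ℕ) (e lam : Fin l → ℕ) : Prop :=
  (∀ i, Algebra.trdeg ℂ (E i) = D i) ∧
  ∀ i : Fin l, E i.castSucc ≤ E i.succ ∧ D i.succ = D i.castSucc + e i ∧
    OrbifoldFibres S δ (E i.succ) (E i.castSucc) (e i) (lam i)

end Pool.Agent.X180.OT
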