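import Pool.Agent.X180.OT.Defs
import Pool.Agent.W619.Y.Stm6
import Pool.Agent.W619.TW.NDefs

/-!
Definitions: abundance for fibre spaces whose fibres dominate a constant variety.
-/

set_option autoImplicit false

open FF Pool.Agent.W619.TW Pool.Agent.W619.Y

namespace Pool.Agent.X180.OT

/-- Let `K` and `U` be the function fields of `X` and of a variety `Z` of dimension `d` with a dominant
rational map `X ⇢ Z` of relative dimension `f + 1`. Let `L` be the algebraic closure of `U` in `K` (the
function field of the variety `W` of the fibre space `X → W` of `X ⇢ Z`), `Λ` an algebraic closure of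
`L`, and `F` the function field of the geometric generic fibre of `X → W`, which is generated by `K`
and `Λ`. Let `M` be the function field of a variety `F₀` over `ℂ` of dimension `f + 1` and let the
geometric generic fibre have a generically finite dominant rational map to `F₀`: `F` is algebraic over
the field which is generated by `Λ` and `M`. Then `κ(X) ≥ k + h` if `κ(F₀) ≥ h`, and `ν(X) ≤ d + h` if
the numerical dimension of the geometric generic fibre is at most `h`. -/
def FibreAbundance {K : Type} [Field K] [Algebra ℂ K] (U : IntermediateField ℂ K) (d k f : ℕ) :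
    Prop :=
  ∀ (L : IntermediateField ℂ K) [Algebra.EssFiniteType ℂ L], (∀ x : K, x ∈ L ↔ IsAlgebraic U x) →
  -- the geometric generic fibre
  ∀ {Λ F : Type} [Field Λ] [Field F] [Algebra L Λ] [IsAlgClosure L Λ] [Algebra Λ F]
    [Algebra K F] [IsScalarTower L Λ F] [Algebra ℂ Λ] [Algebra ℂ F] [IsScalarTower ℂ L Λ]
    [IsScalarTower ℂ Λ F] [IsScalarTower ℂ K F],
  IntermediateField.adjoin Λ (Set.range (algebraMap K F)) = ⊤ →
  -- the constant variety
  ∀ (M : IntermediateField ℂ F) [Algebra.EssFiniteType ℂ M], Algebra.trdeg ℂ M = (f + 1 : ℕ) →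
  (∀ z : F, IsAlgebraic (IntermediateField.adjoin Λ (M : Set F)) z) → ∀ h : ℕ,
  (KodTr ℂ M (f + 1) h → KodTr ℂ K (d + (f + 1)) (k + h)) ∧
  (NumLe Λ F (f + 1) (fun _ => False) h → NumLe ℂ K (d + (f + 1)) (fun _ => False) (d + h))

end Pool.Agent.X180.OT
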