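import Pool.Agent.X180.OT.FibDefs
import Pool.Agent.X180.OT.Forms
import Pool.Agent.X180.OT.Can
import Pool.Agent.X180.TV.Main

/-!
Abundance for fibre spaces over orbifold towers: the proof.
-/

set_option autoImplicit false
set_option linter.overlappingInstances false

open FF Module Pool.Agent.W602.Cov Pool.Agent.W602.GT Pool.Agent.Y172 Pool.Agent.Y191
open Pool.Agent.W619.TW Pool.Agent.W619.Y
open Pool.Agent.X180.TP (Bound affine BaseField Multiplicities IsCanonicalVariety base_kod dims)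
open Pool.Agent.X180.Tow (HasForms hor_nonneg)
open Pool.Agent.X180.Iso (hor)

namespace Pool.Agent.X180.OT

theorem hor_zero {K : Type} [Field K] [Algebra ℂ K] (L : IntermediateField ℂ K) (P : Place ℂ K) :
    hor L (fun _ => (0 : ℝ)) P = 0 := by
  unfold hor
  split_ifs <;> rfl

/-- **Fibre spaces over orbifold towers.** -/
theorem fib_main {K : Type} [Field K] [Algebra ℂ K] [Algebra.EssFiniteType ℂ K] {N l f : ℕ}
    {E : Fin (l + 1) → IntermediateField ℂ K} {D : Fin (l + 1) → ℕ} {e lam : Fin l → ℕ}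
    {y : Fin (N + 1) → K} (hy : IsCanonicalVariety y (D (Fin.last l) + (f + 1)))
    (hT : IsOrbifoldTower {P | IsPrimeDivisor y P} (fun _ => 0) E D e lam) {k : ℕ}
    (hbase : ∀ lam' : ℕ, HasForms (D 0 + (∑ i, e i + (f + 1))) {P | IsPrimeDivisor y P}
      (fun _ => 0) (E 0) (∑ i, e i + (f + 1)) lam' →
      KodairaGe (D 0 + (∑ i, e i + (f + 1))) {P | IsPrimeDivisor y P} (fun _ => 0) (k + lam')) :
    FibreAbundance (E (Fin.last l)) (D (Fin.last l)) (k + ∑ i, lam i) f := by
  intro L _ hL Λ F _ _ _ _ _ _ _ _ _ _ _ _ hF M _ hM hdom h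
  have hVL : E (Fin.last l) ≤ L := fun x hx => (hL x).2 (isAlgebraic_algebraMap (⟨x, hx⟩ :
    E (Fin.last l)))
  have hLalg : ∀ x ∈ L, IsAlgebraic (E (Fin.last l)) x := fun x hx => (hL x).1 hx
  have hLA : L = Pool.Agent.X180.Iso.Acl (E (Fin.last l)) := by
    ext x
    rw [hL, Pool.Agent.X180.Iso.mem_acl]
  have hΛalg : Algebra.IsAlgebraic L Λ := IsAlgClosure.isAlgebraic
  have hLK : ∀ x : K, IsIntegral L x → ∃ y : L, algebraMap L K y = x := by
    intro x hx
    have h1 : IsAlgebraic (Pool.Agent.X180.Iso.Acl (E (Fin.last l))) x := by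
      rw [← hLA]
      exact hx.isAlgebraic
    have h2 : x ∈ L := by
      rw [hLA]
      exact Pool.Agent.X180.Iso.acl_acl h1
    exact ⟨⟨x, h2⟩, rfl⟩
  have hV := hT.1 (Fin.last l)
  have hK : Algebra.trdeg ℂ K = (D (Fin.last l) + (f + 1) : ℕ) := hy.2.1
  have htrL : Algebra.trdeg ℂ L = D (Fin.last l) := by
    rw [← hV]
    exact Pool.Agent.X180.Abn.trdeg_of_alg hVL hLalg
  refine ⟨fun hk => ?_, fun hnum => ?_⟩
  · have h0 : HasForms (D (Fin.last l) + (f + 1)) {P | IsPrimeDivisor y P} (fun _ => 0)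
        (E (Fin.last l)) (f + 1) h :=
      Pool.Agent.X180.Abn.geo_forms hK (Pool.Agent.X180.Iso.trdeg_rel hK hV) hLalg hF
        (fun z => ((hΛalg.isAlgebraic z).algHom (IsScalarTower.toAlgHom L Λ F))) M hM hdom
        (Pool.Agent.X180.Abn.kodGe_of_kodTr hk) _
    have h1 := (orb_forms (fun _ _ => le_rfl) hT hK rfl
      (h0.mono fun P _ => hor_nonneg le_rfl)).mono (δ' := fun _ => 0)
      (fun P _ => (hor_zero _ P).le)
    have hsum : D (Fin.last l) = D 0 + ∑ i, e i := dims fun i => (hT.2 i).2.1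
    have hn : D (Fin.last l) + (f + 1) = D 0 + (∑ i, e i + (f + 1)) := by
      rw [hsum, add_assoc]
    rw [hn] at h1
    have h2 := hbase _ h1
    rw [← hn, ← add_assoc k] at h2
    exact kod_can hy.1 hK hy.2.2 h2
  · exact Pool.Agent.Y174.easy_add ‹Algebra.EssFiniteType ℂ L› ‹Algebra.EssFiniteType ℂ K› hF hLK
      htrL hK hnum

/-- **Fibre spaces over orbifold towers over products of projective spaces.** -/
theorem multi_main {m : ℕ} {n q : Fin m → ℕ} (hn : ∀ i, 1 ≤ n i)
    {ℓ : ∀ i, Fin (q i) → Form (n i)} (hℓ : ∀ i k, ℓ i k ≠ 0) (hr : ∀ i, ¬ Reducible (ℓ i))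
    {d : Fin m → ℕ} (hd : ∀ i, Bound (ℓ i) (d i)) {K : Type} [Field K] [Algebra ℂ K]
    [Algebra.EssFiniteType ℂ K] {N l f : ℕ}
    {E : Fin (l + 1) → IntermediateField ℂ K} {D : Fin (l + 1) → ℕ} {e lam : Fin l → ℕ}
    {y : Fin (N + 1) → K} (hy : IsCanonicalVariety y (D (Fin.last l) + (f + 1)))
    {x : ∀ i, Fin (n i + 1) → K}
    (hx0 : ∀ i, x i 0 ≠ 0) (hind : AlgebraicIndependent ℂ (affine x)) (hE0 : E 0 = BaseField x)
    (hT : IsOrbifoldTower {P | IsPrimeDivisor y P} (fun _ => 0) E D e lam)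
    (hm : Multiplicities y ℓ x d fun z => 1 ≤ z) :
    FibreAbundance (E (Fin.last l)) (D (Fin.last l)) (∑ i, lam i) f ∧
      (Multiplicities y ℓ x d (fun z => 1 < z) →
        FibreAbundance (E (Fin.last l)) (D (Fin.last l)) (D 0 + ∑ i, lam i) f) := by
  have htr : D 0 = ∑ i, n i := by
    let e : ((i : Fin m) × Fin (n i)) ≃ Fin (∑ i, n i) := finSigmaFinEquiv
    have h2 := Pool.Agent.X180.Multi.trdeg_adjoin (hind.comp e.symm e.symm.injective)
    have hrange : Set.range (affine x ∘ e.symm) = Set.range (affine x) :=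
      e.symm.surjective.range_comp (affine x)
    rw [hrange] at h2
    have h3 := hT.1 0
    rw [hE0] at h3
    exact_mod_cast h3.symm.trans h2
  have hsum : D (Fin.last l) = D 0 + ∑ i, e i := dims fun i => (hT.2 i).2.1
  have hK : Algebra.trdeg ℂ K = (∑ i, n i + (∑ i, e i + (f + 1)) : ℕ) := by
    rw [hy.2.1, hsum, htr, add_assoc]
  refine ⟨?_, fun hm' => ?_⟩
  · have h1 := fib_main hy hT (k := 0) fun lam' h0 => by
      rw [hE0, htr] at h0
      rw [htr, zero_add]
      exact (base_kod hn hℓ hr hd hx0 hind hK hm h0).1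
    rwa [zero_add] at h1
  · exact fib_main hy hT (k := D 0) fun lam' h0 => by
      rw [hE0, htr] at h0
      rw [htr]
      exact (base_kod hn hℓ hr hd hx0 hind hK hm h0).2 hm'

end Pool.Agent.X180.OT
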