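import Pool.Agent.X180.OT.Unir

/-!
Nonvanishing for orbifold towers over products of projective spaces: the proof.
-/

set_option autoImplicit false
set_option linter.overlappingInstances false

open FF Module Pool.Agent.W602.Cov Pool.Agent.W602.GT Pool.Agent.Y172 Pool.Agent.Y191
open Pool.Agent.X180.TP (Bound affine BaseField Multiplicities IsCanonicalVariety base_kod dims
  Fibres big Nonvanishing nonvanishing_of exists_idx)
open Pool.Agent.X180.Tow (HasForms hor_nonneg)
open Pool.Agent.X180.Iso (hor)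

namespace Pool.Agent.X180.OT

/-- **Nonvanishing for orbifold towers.** -/
theorem non_gen {K : Type} [Field K] [Algebra ℂ K] {N l c k : ℕ}
    {E : Fin (l + 1) → IntermediateField ℂ K} {D : Fin (l + 1) → ℕ} {e lam : Fin l → ℕ}
    {r s : Fin c → ℕ} {y : Fin (N + 1) → K}
    (hy : IsCanonicalVariety y (D (Fin.last l) + ∑ j, r j))
    (hT : IsOrbifoldTower {P | IsPrimeDivisor y P} (fun _ => 0) E D e lam)
    {w : ∀ j, Fin (s j) → ℚ} (hF : Fibres y (E (Fin.last l)) r s w)
    (hbase : ∀ lam' : ℕ, HasForms (D 0 + (∑ i, e i + ∑ j, r j)) {P | IsPrimeDivisor y P}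
      (fun _ => 0) (E 0) (∑ i, e i + ∑ j, r j) lam' →
      KodairaGe (D 0 + (∑ i, e i + ∑ j, r j)) {P | IsPrimeDivisor y P} (fun _ => 0) (k + lam')) :
    Nonvanishing y (D (Fin.last l) + ∑ j, r j) (k + ∑ i, lam i + big r s w) r s w := by
  obtain ⟨hw, K', _, _, _, _, _, B, u, hB, hu, hH, hC⟩ := hF
  obtain ⟨κ, hκ, hκs⟩ := exists_idx r s w
  have hsum : D (Fin.last l) = D 0 + ∑ i, e i := dims fun i => (hT.2 i).2.1
  have hn : D (Fin.last l) + ∑ j, r j = D 0 + (∑ i, e i + ∑ j, r j) := by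
    rw [hsum, add_assoc]
  refine nonvanishing_of hy (by omega) hw hB hu hC fun hws => ?_
  have h0 : HasForms (D (Fin.last l) + ∑ j, r j) {P | IsPrimeDivisor y P}
      (hor (E (Fin.last l)) fun _ => 0) (E (Fin.last l)) (∑ j, r j) (big r s w) :=
    lc_low (N := D (Fin.last l) + ∑ j, r j)
      (Pool.Agent.X180.Iso.trdeg_rel' hy.2.1 (hT.1 _)) hB finSigmaFinEquiv hu
      (fun j i => ((hw j).2 i).1) hws hκ hκs
      (fun P _ => hor_nonneg le_rfl) (Pool.Agent.X180.Iso.lcHor_hor hH)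
  have h1 := (orb_forms (fun _ _ => le_rfl) hT hy.2.1 rfl h0).mono (δ' := fun _ => 0)
    (fun P _ => (hor_zero _ P).le)
  rw [hn] at h1
  have h2 := hbase _ h1
  rw [← hn, ← add_assoc k] at h2
  exact h2

end Pool.Agent.X180.OT
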