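import Pool.Agent.X180.OT.Forms
import Pool.Agent.X180.Iso.SysPair
import Pool.Agent.X180.Abn.Sys1

/-!
Abundance for orbifold towers over linear systems: the proof.
-/

set_option autoImplicit false
set_option linter.overlappingInstances false

open FF Pool.Agent.W602.GT Pool.Agent.Y172 Pool.Agent.Y191
open Pool.Agent.X180.TP (IsCanonicalVariety Fibres big Abundance Nonvanishing abundance_of
  nonvanishing_of exists_idx dims)

namespace Pool.Agent.X180.OT

/-- **Orbifold towers over linear systems.** -/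
theorem sys_main {n q : ℕ} {K : Type} [Field K] [Algebra ℂ K] {N l c : ℕ}
    {E : Fin (l + 1) → IntermediateField ℂ K} {D : Fin (l + 1) → ℕ} {e lam : Fin l → ℕ}
    (hd : 1 ≤ D 0) (hdn : D 0 ≤ n) {r s : Fin c → ℕ} {y : Fin (N + 1) → K}
    (hy : IsCanonicalVariety y (D (Fin.last l) + ∑ j, r j))
    {V : Submodule ℂ K} (hn : Module.finrank ℂ V = n + 1) {φ : Fin q → K} (hφ0 : ∀ i, φ i ≠ 0)
    (hφ : Submodule.span ℂ (Set.range φ) = V) (hI : Indecomposable V φ) {R : ℕ}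
    (hR : R = n + 2 ∨ (Different (n + 3) φ ∧ R = n + 1)) {t : ℝ}
    (ht : (R : ℝ) * (((n : ℝ) - D 0 + 1) * ((n : ℝ) - D 0 + 2)) ≤ 2 * t)
    (hm : SystemMultiplicities y V φ t) (hE0 : E 0 = ImageField V)
    (hT : IsOrbifoldTower {P | IsPrimeDivisor y P} (fun _ => 0) E D e lam)
    {w : ∀ j, Fin (s j) → ℚ} (hF : Fibres y (E (Fin.last l)) r s w) :
    Nonvanishing y (D (Fin.last l) + ∑ j, r j) (∑ i, lam i + big r s w) r s w ∧
    ((R : ℝ) * (((n : ℝ) - D 0 + 1) * ((n : ℝ) - D 0 + 2)) < 2 * t →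
      Nonvanishing y (D (Fin.last l) + ∑ j, r j) (D 0 + ∑ i, lam i + big r s w) r s w ∧
      ((∀ i, lam i = e i) →
        Abundance y (D (Fin.last l) + ∑ j, r j) (D (Fin.last l)) r s w)) := by
  obtain ⟨hw, K', _, _, _, _, _, B, u, hB, hu, hH, hC⟩ := hF
  obtain ⟨κ, hκ, hκs⟩ := exists_idx r s w
  have hsum : D (Fin.last l) = D 0 + ∑ i, e i := dims fun i => (hT.2 i).2.1
  have hK : Algebra.trdeg ℂ K = (D 0 + (∑ i, e i + ∑ j, r j) : ℕ) := by
    rw [hy.2.1, hsum, add_assoc]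
  have hV : Algebra.trdeg ℂ (ImageField V) = (D 0 : ℕ) := by
    rw [← hE0]
    exact hT.1 0
  have h1 : ∀ hws : (∀ j, (r j + 1 : ℚ) ≤ ∑ i, w j i),
      Pool.Agent.X180.Tow.HasForms (D 0 + (∑ i, e i + ∑ j, r j)) {P | IsPrimeDivisor y P}
        (Pool.Agent.X180.Iso.hor (ImageField V) fun _ => 0) (ImageField V)
        (∑ i, e i + ∑ j, r j) (∑ i, lam i + big r s w) := by
    intro hws
    have h0 : Pool.Agent.X180.Tow.HasForms (D (Fin.last l) + ∑ j, r j) {P | IsPrimeDivisor y P}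
        (Pool.Agent.X180.Iso.hor (E (Fin.last l)) fun _ => 0) (E (Fin.last l)) (∑ j, r j)
        (big r s w) :=
      lc_low (N := D (Fin.last l) + ∑ j, r j)
        (Pool.Agent.X180.Iso.trdeg_rel' hy.2.1 (hT.1 _)) hB finSigmaFinEquiv hu
        (fun j i => ((hw j).2 i).1) hws hκ hκs
        (fun P _ => Pool.Agent.X180.Tow.hor_nonneg le_rfl) (Pool.Agent.X180.Iso.lcHor_hor hH)
    have h1 := orb_forms (fun _ _ => le_rfl) hT hy.2.1 rfl h0
    rw [hsum, hE0, add_assoc] at h1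
    exact h1
  have h2 := fun hws => Pool.Agent.X180.Iso.sys_pair (c := 1) (X := {P | IsPrimeDivisor y P})
    (δ := fun _ => 0) hd hdn hK hV hφ0 hφ (Pool.Agent.X180.Abn.dcp_one hφ hn)
    (Pool.Agent.X180.Abn.not_dcp hI) (R := R)
    (hR.imp (fun h => by omega) fun h => ⟨rfl, h⟩) ht
    (fun _ _ => le_rfl) (fun P hPX _ a ha hb hc => by
      obtain ⟨i, i', h1⟩ := hm P hPX a ha hb hc
      exact ⟨i, i', rfl, by simpa using h1⟩) (h1 hws)
  refine ⟨nonvanishing_of hy (by omega) hw hB hu hC fun hws => ?_, fun ht' =>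
    ⟨nonvanishing_of hy (by omega) hw hB hu hC fun hws => ?_, fun hle =>
      abundance_of hy hw hB hu hC fun hws => ?_⟩⟩
  · rw [hsum, add_assoc]
    exact (h2 hws).1
  · have h3 := (h2 hws).2 ht' (D 0) rfl
    rw [hsum, add_assoc, add_assoc]
    exact h3
  · have h3 := (h2 hws).2 ht' (D 0) rfl
    rw [show ∑ i, lam i = ∑ i, e i from Finset.sum_congr rfl fun i _ => hle i] at h3
    rw [hsum, add_assoc, add_assoc]
    exact h3

end Pool.Agent.X180.OT
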